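import Mathlib
import Pool.Agent.H8.MI2

namespace Pool.Agent.Results.MP_658dbf_an.UpToTwo
open Polynomial Real

/-- The set of values of the weighted integral over monic integer polynomials. -/
def vals (l : ℝ) : Set ℝ :=
  {v | ∃ P : ℤ[X], P.Monic ∧ v = ∫ θ in (-π)..π,
    ‖1 - Complex.exp (θ * Complex.I)‖ ^ (2 * l) * ‖aeval (Complex.exp (θ * Complex.I)) P‖ ^ 2}

/-- The integral of the weight alone. -/
noncomputable def c (l : ℝ) : ℝ := ∫ θ in (-π)..π, ‖1 - Complex.exp (θ * Complex.I)‖ ^ (2 * l)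

theorem result (l : ℝ) :
    (0 < l → l ≤ 1 → IsLeast (vals l) (c l)) ∧
    (1 < l → l ≤ 2 → IsGLB (vals l) (2 * c (l - 1))) := by
  constructor
  · intro h0 h1
    refine ⟨⟨1, monic_one, by simp [c]⟩, ?_⟩
    rintro v ⟨P, hP, rfl⟩
    exact Pool.Agent.H8.MI.low1 P hP.ne_zero h0 h1
  · intro h0 h1
    obtain ⟨μ, rfl⟩ : ∃ μ, l = μ + 1 := ⟨l - 1, by ring⟩
    rw [add_sub_cancel_right]
    constructor
    · rintro v ⟨P, hP, rfl⟩
      exact Pool.Agent.H8.MI.low2 P hP.ne_zero (by linarith) (by linarith)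
    · intro b hb
      refine ge_of_tendsto' (Pool.Agent.H8.MI.up2 (μ := μ) (by linarith)) (fun n => hb ?_)
      exact ⟨_, monic_geom_sum_X (Nat.succ_ne_zero n), rfl⟩

end Pool.Agent.Results.MP_658dbf_an.UpToTwo
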